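import Mathlib

/-!
# Paths in the plane, path integrals and maximal collections
-/

set_option autoImplicit false

namespace Pool.Agent.R709.JP

open Set

/-- A path: a continuous map from a compact interval `[a, b]`, where `a < b`, to the plane. The
values of `map` outside of `[a, b]` are irrelevant. -/
structure Pth where
  /-- the left endpoint of the parameter interval -/
  a : ℝ
  /-- the right endpoint of the parameter interval -/
  b : ℝ
  /-- the parameter interval is nondegenerate -/
  lt : a < b
  /-- the map -/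
  map : ℝ → ℂ
  /-- the map is continuous on the parameter interval -/
  cont : ContinuousOn map (Icc a b)

/-- The image of a path. -/
def Pth.image (γ : Pth) : Set ℂ := γ.map '' Icc γ.a γ.b

/-- `σ` is a subpath of `γ`: a restriction of `γ` to a nondegenerate closed subinterval. -/
def Pth.IsSubpath (σ γ : Pth) : Prop :=
  γ.a ≤ σ.a ∧ σ.b ≤ γ.b ∧ EqOn σ.map γ.map (Icc σ.a σ.b)

/-- A Jordan path is an injective path. -/
def Pth.Jordan (γ : Pth) : Prop := InjOn γ.map (Icc γ.a γ.b)

/-- A path is rectifiable if it is of bounded variation. -/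
def Pth.Rectifiable (γ : Pth) : Prop := BoundedVariationOn γ.map (Icc γ.a γ.b)

/-- A path is admissible if it is rectifiable and has no constant subpath. -/
def Pth.Admissible (γ : Pth) : Prop :=
  γ.Rectifiable ∧ ∀ σ : Pth, σ.IsSubpath γ → ¬ ∃ w : ℂ, ∀ t ∈ Icc σ.a σ.b, σ.map t = w

/-- The Riemann-Stieltjes sum of `g` along `γ` for the partition points `x 0, ..., x n` and the
tags `ξ 0, ..., ξ (n - 1)`. -/
noncomputable def rsum (g : ℂ → ℂ) (γ : ℝ → ℂ) (n : ℕ) (x ξ : ℕ → ℝ) : ℂ :=
  ∑ j ∈ Finset.range n, g (γ (ξ j)) * (γ (x (j + 1)) - γ (x j))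

/-- The path integral of `g` along `γ` exists and is equal to `I`: the Riemann-Stieltjes sums
converge to `I` when the mesh of the tagged partitions `a = x 0 < x 1 < ... < x n = b` with tags
`ξ j` in `[x j, x (j + 1)]` tends to `0`. -/
def HasPathIntegral (g : ℂ → ℂ) (γ : Pth) (I : ℂ) : Prop :=
  ∀ ε > 0, ∃ δ > 0, ∀ (n : ℕ) (x ξ : ℕ → ℝ), x 0 = γ.a → x n = γ.b →
    (∀ j < n, x j < x (j + 1) ∧ x (j + 1) - x j < δ ∧ ξ j ∈ Icc (x j) (x (j + 1))) →
      ‖rsum g γ.map n x ξ - I‖ < ε

/-- `g` is an `F`-derivative of `f`. -/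
def IsDerivative (F : Set Pth) (f g : ℂ → ℂ) : Prop :=
  ∀ γ ∈ F, HasPathIntegral g γ (f (γ.map γ.b) - f (γ.map γ.a))

/-- The maximal collection of paths in `X` that is generated by `F`: the admissible paths `γ` in
`X` such that whenever `f` and `g` are continuous on `X` and `g` is an `F`-derivative of `f`, then
`g` is a `γ`-derivative of `f`, that is, a derivative of `f` with respect to all subpaths
of `γ`. -/
def maximalCollection (X : Set ℂ) (F : Set Pth) : Set Pth :=
  {γ | γ.Admissible ∧ γ.image ⊆ X ∧ ∀ f g : ℂ → ℂ, ContinuousOn f X → ContinuousOn g X →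
    IsDerivative F f g → IsDerivative {σ | σ.IsSubpath γ} f g}

end Pool.Agent.R709.JP
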