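import Pool.Agent.R709.JP.Defs

/-!
# The key estimate
-/

set_option autoImplicit false

namespace Pool.Agent.R709.JP

open Set Filter Topology MeasureTheory

/-- The bound for an integral. -/
theorem bound_of_integral {Γ : ℝ → ℂ} {V : ℝ → ℝ} {f g : ℂ → ℂ} {a b : ℝ} (hab : a < b)
    (hV : ∀ s t, a ≤ s → s ≤ t → t ≤ b → ‖Γ t - Γ s‖ ≤ V t - V s)
    (hI : ∀ ε > 0, ∃ δ > 0, ∀ (n : ℕ) (x ξ : ℕ → ℝ), x 0 = a → x n = b →
      (∀ j < n, x j < x (j + 1) ∧ x (j + 1) - x j < δ ∧ ξ j ∈ Icc (x j) (x (j + 1))) →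
        ‖rsum g Γ n x ξ - (f (Γ b) - f (Γ a))‖ < ε)
    (c : ℂ) (M : ℝ) (hM : ∀ t ∈ Icc a b, ‖g (Γ t) - c‖ ≤ M) :
    ‖(f (Γ b) - c * Γ b) - (f (Γ a) - c * Γ a)‖ ≤ M * (V b - V a) := by
  refine le_of_forall_pos_le_add fun ε hε => ?_
  obtain ⟨δ, hδ, h⟩ := hI ε hε
  obtain ⟨N, hN⟩ := exists_nat_gt ((b - a) / δ)
  have hN0 : (0 : ℝ) < N := lt_trans (div_pos (by linarith) hδ) hN
  have hst : 0 < (b - a) / N := div_pos (by linarith) hN0
  have hst' : (b - a) / N < δ := by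
    rw [div_lt_iff₀ hN0]
    rw [div_lt_iff₀ hδ] at hN
    linarith
  set x : ℕ → ℝ := fun j => a + j * ((b - a) / N) with hx
  have hx0 : x 0 = a := by simp [hx]
  have hxN : x N = b := by
    simp only [hx]
    field_simp
    ring
  have hxs : ∀ j, x (j + 1) - x j = (b - a) / N := by
    intro j
    simp only [hx]
    push_cast
    ring
  have hmono : ∀ j, x j ≤ x (j + 1) := fun j => by linarith [hxs j]
  have hmono' : Monotone x := monotone_nat_of_le_succ hmono
  have h1 := h N x x hx0 hxN (fun j hj => ⟨by linarith [hxs j], by linarith [hxs j],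
    le_refl _, hmono j⟩)
  have h2 : rsum g Γ N x x - c * (Γ b - Γ a) =
      ∑ j ∈ Finset.range N, (g (Γ (x j)) - c) * (Γ (x (j + 1)) - Γ (x j)) := by
    rw [← hxN, ← hx0, ← Finset.sum_range_sub (fun j => Γ (x j)) N, rsum, Finset.mul_sum,
      ← Finset.sum_sub_distrib]
    refine Finset.sum_congr rfl fun j _ => ?_
    ring
  have h3 : ‖rsum g Γ N x x - c * (Γ b - Γ a)‖ ≤ M * (V b - V a) := by
    rw [h2]
    refine (norm_sum_le _ _).trans ?_
    have h4 : M * (V b - V a) = ∑ j ∈ Finset.range N, M * (V (x (j + 1)) - V (x j)) := by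
      rw [← Finset.mul_sum, Finset.sum_range_sub (fun j => V (x j)) N, hxN, hx0]
    rw [h4]
    refine Finset.sum_le_sum fun j hj => ?_
    have hj' : j < N := Finset.mem_range.1 hj
    have ha : a ≤ x j := hx0 ▸ hmono' (Nat.zero_le j)
    have hb : x (j + 1) ≤ b := hxN ▸ hmono' hj'
    have hM' := hM (x j) ⟨ha, (hmono j).trans hb⟩
    rw [norm_mul]
    exact mul_le_mul hM' (hV _ _ ha (hmono j) hb) (norm_nonneg _) ((norm_nonneg _).trans hM')
  have h5 : (f (Γ b) - c * Γ b) - (f (Γ a) - c * Γ a) =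
      (rsum g Γ N x x - c * (Γ b - Γ a)) - (rsum g Γ N x x - (f (Γ b) - f (Γ a))) := by
    ring
  rw [h5]
  refine (norm_sub_le _ _).trans ?_
  linarith

theorem key {Γ γ : ℝ → ℂ} {a b c d : ℝ} {V : ℝ → ℝ} (hab : a < b)
    (hΓ : ContinuousOn Γ (Icc a b)) (hγ : ContinuousOn γ (Icc c d)) (hinj : InjOn γ (Icc c d))
    (hsub : γ '' Icc c d ⊆ Γ '' Icc a b) (hV : MonotoneOn V (Icc a b)) {f g : ℂ → ℂ}
    (hf : ContinuousOn f (Γ '' Icc a b)) (hg : ContinuousOn g (Γ '' Icc a b))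
    (H : ∀ s t, a ≤ s → s ≤ t → t ≤ b → ∀ (z : ℂ) (M : ℝ), (∀ u ∈ Icc s t, ‖g (Γ u) - z‖ ≤ M) →
      ‖(f (Γ t) - z * Γ t) - (f (Γ s) - z * Γ s)‖ ≤ M * (V t - V s))
    (r : ℂ → ℝ) (hr : ∀ z w, |r z - r w| ≤ ‖z - w‖) (D : Finset ℕ) (p q : ℕ → ℝ) (z : ℕ → ℂ)
    (om : ℝ) (hom0 : 0 ≤ om) (hp : ∀ j ∈ D, c ≤ p j ∧ p j ≤ q j ∧ q j ≤ d)
    (hdis : ∀ j ∈ D, ∀ k ∈ D, j ≠ k → Disjoint (Icc (p j) (q j)) (Icc (p k) (q k)))
    (hom : ∀ j ∈ D, ∀ u ∈ Icc (p j) (q j), ‖g (γ u) - z j‖ ≤ om) :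
    ∑ j ∈ D, |r (f (γ (q j)) - z j * γ (q j)) - r (f (γ (p j)) - z j * γ (p j))| ≤
      om * (V b - V a) := by
  classical
  have hv : 0 ≤ V b - V a :=
    sub_nonneg.2 (hV (left_mem_Icc.2 hab.le) (right_mem_Icc.2 hab.le) hab.le)
  have hrc : Continuous r := by
    refine continuous_iff_continuousAt.2 fun w => ?_
    rw [Metric.continuousAt_iff]
    intro ε hε
    refine ⟨ε, hε, fun {w'} hw' => ?_⟩
    rw [Real.dist_eq]
    rw [dist_eq_norm] at hw'
    exact (hr _ _).trans_lt hw'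
  refine le_of_forall_pos_le_add fun ε hε => ?_
  -- the small number
  set η : ℝ := ε / (V b - V a + 1) with hη
  have hη0 : 0 < η := div_pos hε (by linarith)
  have hη1 : η * (V b - V a) ≤ ε := by
    rw [hη, div_mul_eq_mul_div, div_le_iff₀ (by linarith)]
    nlinarith
  -- the sets
  set A : ℕ → Set ℝ := fun j => Icc a b ∩ Γ ⁻¹' (γ '' Icc (p j) (q j)) with hA
  have hIcc : ∀ j ∈ D, Icc (p j) (q j) ⊆ Icc c d := fun j hj =>
    Icc_subset_Icc (hp j hj).1 (hp j hj).2.2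
  have hAcl : ∀ j ∈ D, IsClosed (A j) := fun j hj =>
    hΓ.preimage_isClosed_of_isClosed isClosed_Icc
      (isCompact_Icc.image_of_continuousOn (hγ.mono (hIcc j hj))).isClosed
  have hAd : ∀ j ∈ D, ∀ k ∈ D, ∀ t, t ∈ A j → t ∈ A k → j = k := by
    rintro j hj k hk t ⟨-, u, hu, hu'⟩ ⟨-, w, hw, hw'⟩
    by_contra hne
    have h1 : u = w := hinj (hIcc j hj hu) (hIcc k hk hw) (hu'.trans hw'.symm)
    subst h1
    exact Set.disjoint_left.1 (hdis j hj k hk hne) hu hw
  -- the Lebesgue number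
  obtain ⟨ρ₁, hρ₁, hL⟩ := lebesgue_number_lemma_of_metric (s := Icc a b) isCompact_Icc
    (c := fun j : ℕ => (⋃ k ∈ D.erase j, A k)ᶜ)
    (fun j => (isClosed_biUnion_finset fun k hk => hAcl k (Finset.mem_of_mem_erase hk)).isOpen_compl)
    (by
      intro t ht
      rw [mem_iUnion]
      by_cases h : ∃ j ∈ D, t ∈ A j
      · obtain ⟨j, hj, hj'⟩ := h
        refine ⟨j, ?_⟩
        rw [mem_compl_iff, mem_iUnion₂]
        rintro ⟨k, hk, hk'⟩
        exact (Finset.ne_of_mem_erase hk) (hAd j hj k (Finset.mem_of_mem_erase hk) t hj' hk').symm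
      · refine ⟨0, ?_⟩
        rw [mem_compl_iff, mem_iUnion₂]
        rintro ⟨k, hk, hk'⟩
        exact h ⟨k, Finset.mem_of_mem_erase hk, hk'⟩)
  have hL' : ∀ j ∈ D, ∀ k ∈ D, ∀ s ∈ A j, ∀ t ∈ A k, |s - t| < ρ₁ → j = k := by
    intro j hj k hk s hs t ht hst
    obtain ⟨l, hl⟩ := hL s hs.1
    have h1 : j = l := by
      by_contra hne
      exact hl (Metric.mem_ball_self hρ₁) (mem_iUnion₂.2 ⟨j, Finset.mem_erase.2 ⟨hne, hj⟩, hs⟩)
    have h2 : k = l := by
      by_contra hne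
      refine hl (a := t) ?_ (mem_iUnion₂.2 ⟨k, Finset.mem_erase.2 ⟨hne, hk⟩, ht⟩)
      rw [Metric.mem_ball, Real.dist_eq, abs_sub_comm]
      exact hst
    rw [h1, h2]
  -- uniform continuity
  have hgΓ : ContinuousOn (fun t => g (Γ t)) (Icc a b) :=
    hg.comp hΓ fun t ht => mem_image_of_mem _ ht
  have huc := isCompact_Icc.uniformContinuousOn_of_continuous hgΓ
  rw [Metric.uniformContinuousOn_iff] at huc
  obtain ⟨ρ₂, hρ₂, hU⟩ := huc η hη0
  -- the grid
  set ρ := min ρ₁ ρ₂ with hρ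
  have hρ0 : 0 < ρ := lt_min hρ₁ hρ₂
  obtain ⟨N, hN⟩ := exists_nat_gt ((b - a) / ρ)
  have hN0 : (0 : ℝ) < N := lt_trans (div_pos (by linarith) hρ0) hN
  set w : ℝ := (b - a) / N with hw
  have hw0 : 0 < w := div_pos (by linarith) hN0
  have hwρ : w < ρ := by
    rw [hw, div_lt_iff₀ hN0]
    rw [div_lt_iff₀ hρ0] at hN
    linarith
  set y : ℕ → ℝ := fun i => a + i * w with hy
  have hy0 : y 0 = a := by simp [hy]
  have hyN : y N = b := by
    simp only [hy, hw]
    field_simp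
    ring
  have hys : ∀ i, y (i + 1) = y i + w := by
    intro i
    simp only [hy]
    push_cast
    ring
  have hym : Monotone y := monotone_nat_of_le_succ fun i => by rw [hys]; linarith
  have hya : ∀ i, a ≤ y i := fun i => hy0 ▸ hym (Nat.zero_le i)
  have hyb : ∀ i < N, y (i + 1) ≤ b := fun i hi => hyN ▸ hym hi
  have hcov : ∀ t ∈ Icc a b, ∃ i < N, t ∈ Icc (y i) (y (i + 1)) := by
    intro t ht
    by_cases hb : t = b
    · have hNp : 0 < N := by exact_mod_cast hN0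
      refine ⟨N - 1, by omega, ?_⟩
      have h1 : N - 1 + 1 = N := by omega
      rw [h1, hyN, hb]
      refine ⟨?_, le_rfl⟩
      rw [← hyN]
      exact hym (by omega)
    · have htb : t < b := lt_of_le_of_ne ht.2 hb
      have h0 : 0 ≤ (t - a) / w := div_nonneg (by linarith [ht.1]) hw0.le
      refine ⟨⌊(t - a) / w⌋₊, ?_, ?_, ?_⟩
      · rw [Nat.floor_lt h0, div_lt_iff₀ hw0, hw]
        have : (N : ℝ) * ((b - a) / N) = b - a := by field_simp
        rw [this]
        linarith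
      · have h1 := Nat.floor_le h0
        rw [le_div_iff₀ hw0] at h1
        simp only [hy]
        linarith
      · have h1 := Nat.lt_floor_add_one ((t - a) / w)
        rw [div_lt_iff₀ hw0] at h1
        simp only [hy]
        push_cast
        linarith
  -- the index sets
  set NN : ℕ → Finset ℕ := fun j =>
    (Finset.range N).filter fun i => (A j ∩ Icc (y i) (y (i + 1))).Nonempty with hNN
  have hclose : ∀ i, ∀ s ∈ Icc (y i) (y (i + 1)), ∀ t ∈ Icc (y i) (y (i + 1)), |s - t| < ρ := by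
    intro i s hs t ht
    rw [hys] at hs ht
    rw [abs_lt]
    constructor <;> linarith [hs.1, hs.2, ht.1, ht.2]
  have hNd : (D : Set ℕ).PairwiseDisjoint NN := by
    intro j hj k hk hne
    refine Finset.disjoint_left.2 fun i hi hi' => hne ?_
    obtain ⟨s, hs, hs'⟩ := (Finset.mem_filter.1 hi).2
    obtain ⟨t, ht, ht'⟩ := (Finset.mem_filter.1 hi').2
    exact hL' j hj k hk s hs t ht ((hclose i s hs' t ht').trans_le (min_le_left _ _))
  have hW : ∀ i < N, 0 ≤ V (y (i + 1)) - V (y i) := fun i hi =>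
    sub_nonneg.2 (hV ⟨hya _, (hym (Nat.le_succ i)).trans (hyb i hi)⟩ ⟨hya _, hyb i hi⟩
      (hym (Nat.le_succ i)))
  -- the estimate for one index
  have hone : ∀ j ∈ D, |r (f (γ (q j)) - z j * γ (q j)) - r (f (γ (p j)) - z j * γ (p j))| ≤
      ∑ i ∈ NN j, (om + η) * (V (y (i + 1)) - V (y i)) := by
    intro j hj
    obtain ⟨hcp, hpq, hqd⟩ := hp j hj
    set F : ℂ → ℝ := fun u => r (f u - z j * u) with hF
    have hFc : ContinuousOn F (Γ '' Icc a b) :=
      hrc.comp_continuousOn (hf.sub (continuousOn_const.mul continuousOn_id))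
    have hFγ : ContinuousOn (fun u => F (γ u)) (uIcc (p j) (q j)) := by
      rw [uIcc_of_le hpq]
      exact hFc.comp (hγ.mono (hIcc j hj)) fun u hu =>
        hsub (mem_image_of_mem _ (hIcc j hj hu))
    have h1 : uIcc (F (γ (p j))) (F (γ (q j))) ⊆
        ⋃ i ∈ NN j, (fun t => F (Γ t)) '' Icc (y i) (y (i + 1)) := by
      intro v hv'
      obtain ⟨u, hu, rfl⟩ := intermediate_value_uIcc hFγ hv'
      rw [uIcc_of_le hpq] at hu
      obtain ⟨t, ht, ht'⟩ := hsub (mem_image_of_mem _ (hIcc j hj hu))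
      obtain ⟨i, hi, hi'⟩ := hcov t ht
      refine mem_iUnion₂.2 ⟨i, Finset.mem_filter.2 ⟨Finset.mem_range.2 hi, t,
        ⟨ht, u, hu, ht'.symm⟩, hi'⟩, t, hi', ?_⟩
      change F (Γ t) = F (γ u)
      rw [ht']
    have h2 : ∀ i ∈ NN j, volume ((fun t => F (Γ t)) '' Icc (y i) (y (i + 1))) ≤
        ENNReal.ofReal ((om + η) * (V (y (i + 1)) - V (y i))) := by
      intro i hi
      obtain ⟨hiN, s, hs, hs'⟩ := Finset.mem_filter.1 hi
      have hiN' := Finset.mem_range.1 hiN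
      refine (Real.volume_le_diam _).trans ?_
      refine Metric.ediam_le ?_
      have hsub' : Icc (y i) (y (i + 1)) ⊆ Icc a b := Icc_subset_Icc (hya i) (hyb i hiN')
      have hM : ∀ u ∈ Icc (y i) (y (i + 1)), ‖g (Γ u) - z j‖ ≤ om + η := by
        intro u hu
        obtain ⟨hs1, v, hv1, hv2⟩ := hs
        have h3 := hU u (hsub' hu) s hs1 (by
          rw [Real.dist_eq]
          exact (hclose i u hu s hs').trans_le (min_le_right _ _))
        rw [dist_eq_norm] at h3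
        have h4 := hom j hj v hv1
        rw [hv2] at h4
        have h5 : g (Γ u) - z j = (g (Γ u) - g (Γ s)) + (g (Γ s) - z j) := by ring
        rw [h5]
        refine (norm_add_le _ _).trans ?_
        linarith
      have hpair : ∀ s' t', s' ∈ Icc (y i) (y (i + 1)) → t' ∈ Icc (y i) (y (i + 1)) → s' ≤ t' →
          |F (Γ t') - F (Γ s')| ≤ (om + η) * (V (y (i + 1)) - V (y i)) := by
        intro s' t' hs1 ht1 hst
        have h3 := H s' t' (hsub' hs1).1 hst (hsub' ht1).2 (z j) (om + η) fun u hu =>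
          hM u ⟨hs1.1.trans hu.1, hu.2.trans ht1.2⟩
        refine (hr _ _).trans (h3.trans ?_)
        refine mul_le_mul_of_nonneg_left ?_ (by linarith)
        have h4 := hV (hsub' (left_mem_Icc.2 (hym (Nat.le_succ i)))) (hsub' hs1) hs1.1
        have h5 := hV (hsub' ht1) (hsub' (right_mem_Icc.2 (hym (Nat.le_succ i)))) ht1.2
        linarith
      rintro _ ⟨s', hs1, rfl⟩ _ ⟨t', ht1, rfl⟩
      rw [edist_dist]
      refine ENNReal.ofReal_le_ofReal ?_
      rw [Real.dist_eq]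
      rcases le_total s' t' with h | h
      · rw [abs_sub_comm]
        exact hpair s' t' hs1 ht1 h
      · exact hpair t' s' ht1 hs1 h
    have h3 : ENNReal.ofReal |F (γ (q j)) - F (γ (p j))| ≤
        ENNReal.ofReal (∑ i ∈ NN j, (om + η) * (V (y (i + 1)) - V (y i))) := by
      rw [← Real.volume_interval, ENNReal.ofReal_sum_of_nonneg]
      · refine (measure_mono h1).trans ((measure_biUnion_finset_le _ _).trans ?_)
        exact Finset.sum_le_sum h2
      · intro i hi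
        exact mul_nonneg (by linarith) (hW i (Finset.mem_range.1 (Finset.mem_filter.1 hi).1))
    refine (ENNReal.ofReal_le_ofReal_iff ?_).1 h3
    refine Finset.sum_nonneg fun i hi => ?_
    exact mul_nonneg (by linarith) (hW i (Finset.mem_range.1 (Finset.mem_filter.1 hi).1))
  calc ∑ j ∈ D, |r (f (γ (q j)) - z j * γ (q j)) - r (f (γ (p j)) - z j * γ (p j))|
      ≤ ∑ j ∈ D, ∑ i ∈ NN j, (om + η) * (V (y (i + 1)) - V (y i)) := Finset.sum_le_sum hone
    _ = ∑ i ∈ D.biUnion NN, (om + η) * (V (y (i + 1)) - V (y i)) :=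
        (Finset.sum_biUnion hNd).symm
    _ ≤ ∑ i ∈ Finset.range N, (om + η) * (V (y (i + 1)) - V (y i)) := by
        refine Finset.sum_le_sum_of_subset_of_nonneg ?_ fun i hi _ =>
          mul_nonneg (by linarith) (hW i (Finset.mem_range.1 hi))
        intro i hi
        obtain ⟨j, -, hj⟩ := Finset.mem_biUnion.1 hi
        exact (Finset.mem_filter.1 hj).1
    _ = (om + η) * (V b - V a) := by
        rw [← Finset.mul_sum, Finset.sum_range_sub (fun i => V (y i)) N, hyN, hy0]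
    _ ≤ om * (V b - V a) + ε := by
        rw [add_mul]
        linarith

end Pool.Agent.R709.JP
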