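import Pool.Agent.R709.JP.Key

/-!
# Jordan paths belong to the maximal collection
-/

set_option autoImplicit false

namespace Pool.Agent.R709.JP

open Set Filter Topology MeasureTheory

/-- The estimate for one linear functional and a partition. -/
theorem key_part {Γ γ : ℝ → ℂ} {a b c d : ℝ} {V : ℝ → ℝ} (hab : a < b)
    (hΓ : ContinuousOn Γ (Icc a b)) (hγ : ContinuousOn γ (Icc c d)) (hinj : InjOn γ (Icc c d))
    (hsub : γ '' Icc c d ⊆ Γ '' Icc a b) (hV : MonotoneOn V (Icc a b)) {f g : ℂ → ℂ}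
    (hf : ContinuousOn f (Γ '' Icc a b)) (hg : ContinuousOn g (Γ '' Icc a b))
    (H : ∀ s t, a ≤ s → s ≤ t → t ≤ b → ∀ (z : ℂ) (M : ℝ), (∀ u ∈ Icc s t, ‖g (Γ u) - z‖ ≤ M) →
      ‖(f (Γ t) - z * Γ t) - (f (Γ s) - z * Γ s)‖ ≤ M * (V t - V s))
    (r : ℂ → ℝ) (hr : ∀ z w, |r z - r w| ≤ ‖z - w‖) (m : ℕ) (x : ℕ → ℝ) (z : ℕ → ℂ)
    (om : ℝ) (hom0 : 0 ≤ om) (hx : Monotone x) (hc : c ≤ x 0) (hd : x m ≤ d)
    (hom : ∀ j < m, ∀ u ∈ Icc (x j) (x (j + 1)), ‖g (γ u) - z j‖ ≤ om) :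
    ∑ j ∈ Finset.range m, |r (f (γ (x (j + 1))) - z j * γ (x (j + 1))) -
      r (f (γ (x j)) - z j * γ (x j))| ≤ om * (V b - V a) := by
  classical
  set D : Finset ℕ := (Finset.range m).filter fun j => x j < x (j + 1) with hD
  have hrc : Continuous r := by
    refine continuous_iff_continuousAt.2 fun w => ?_
    rw [Metric.continuousAt_iff]
    intro ε hε
    refine ⟨ε, hε, fun {w'} hw' => ?_⟩
    rw [Real.dist_eq]
    rw [dist_eq_norm] at hw'
    exact (hr _ _).trans_lt hw'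
  have hmem : ∀ j < m, ∀ u ∈ Icc (x j) (x (j + 1)), u ∈ Icc c d := fun j hj u hu =>
    ⟨hc.trans ((hx (Nat.zero_le j)).trans hu.1), hu.2.trans ((hx hj).trans hd)⟩
  have h1 : ∑ j ∈ Finset.range m, |r (f (γ (x (j + 1))) - z j * γ (x (j + 1))) -
      r (f (γ (x j)) - z j * γ (x j))| = ∑ j ∈ D, |r (f (γ (x (j + 1))) - z j * γ (x (j + 1))) -
      r (f (γ (x j)) - z j * γ (x j))| := by
    rw [hD, Finset.sum_filter]
    refine Finset.sum_congr rfl fun j _ => ?_
    split_ifs with h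
    · rfl
    · have h2 : x (j + 1) = x j := le_antisymm (not_lt.1 h) (hx (Nat.le_succ j))
      rw [h2]
      simp
  rw [h1]
  -- the shrunk intervals
  have h2 : ∀ᶠ τ in 𝓝[>] (0 : ℝ), ∑ j ∈ D,
      |r (f (γ (x (j + 1) - τ)) - z j * γ (x (j + 1) - τ)) - r (f (γ (x j)) - z j * γ (x j))| ≤
        om * (V b - V a) := by
    have h3 : ∀ᶠ τ in 𝓝[>] (0 : ℝ), ∀ j ∈ D, τ < x (j + 1) - x j := by
      rw [Filter.eventually_all_finset]
      intro j hj
      have h4 : 0 < x (j + 1) - x j := sub_pos.2 (Finset.mem_filter.1 hj).2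
      exact Filter.Eventually.filter_mono nhdsWithin_le_nhds (eventually_lt_nhds h4)
    filter_upwards [h3, self_mem_nhdsWithin] with τ h4 h5
    have h5' : 0 < τ := h5
    refine key hab hΓ hγ hinj hsub hV hf hg H r hr D x (fun j => x (j + 1) - τ) z om hom0 ?_ ?_ ?_
    · intro j hj
      have hj' := Finset.mem_range.1 (Finset.mem_filter.1 hj).1
      have h6 := h4 j hj
      refine ⟨hc.trans (hx (Nat.zero_le j)), by linarith, ?_⟩
      have h7 : x (j + 1) ≤ d := (hx hj').trans hd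
      linarith
    · have h8 : ∀ j k, j < k → Disjoint (Icc (x j) (x (j + 1) - τ)) (Icc (x k) (x (k + 1) - τ)) := by
        intro j k hjk
        refine Set.disjoint_left.2 fun u hu hu' => ?_
        have h9 : x (j + 1) ≤ x k := hx hjk
        linarith [hu.2, hu'.1]
      intro j _ k _ hne
      rcases lt_or_gt_of_ne hne with h | h
      · exact h8 j k h
      · exact (h8 k j h).symm
    · intro j hj u hu
      have hj' := Finset.mem_range.1 (Finset.mem_filter.1 hj).1
      exact hom j hj' u ⟨hu.1, hu.2.trans (by linarith)⟩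
  refine le_of_tendsto (f := fun τ : ℝ => ∑ j ∈ D,
      |r (f (γ (x (j + 1) - τ)) - z j * γ (x (j + 1) - τ)) - r (f (γ (x j)) - z j * γ (x j))|)
      ?_ h2
  refine tendsto_finsetSum _ fun j hj => ?_
  have hj' := Finset.mem_range.1 (Finset.mem_filter.1 hj).1
  have hjlt := (Finset.mem_filter.1 hj).2
  refine Filter.Tendsto.abs (Filter.Tendsto.sub_const ?_ _)
  -- continuity of the composition at the right endpoint, from the left
  have hF : ContinuousOn (fun u => r (f (γ u) - z j * γ u)) (Icc (x j) (x (j + 1))) := by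
    refine hrc.comp_continuousOn ?_
    have hγ' : ContinuousOn γ (Icc (x j) (x (j + 1))) := hγ.mono fun u hu => hmem j hj' u hu
    exact (hf.comp hγ' fun u hu => hsub (mem_image_of_mem _ (hmem j hj' u hu))).sub
      (continuousOn_const.mul hγ')
  have h3 := hF (x (j + 1)) (right_mem_Icc.2 hjlt.le)
  have h4 : Tendsto (fun τ : ℝ => x (j + 1) - τ) (𝓝[>] 0)
      (𝓝[Icc (x j) (x (j + 1))] x (j + 1)) := by
    rw [tendsto_nhdsWithin_iff]
    constructor
    · have h5 : Tendsto (fun τ : ℝ => x (j + 1) - τ) (𝓝 0) (𝓝 (x (j + 1) - 0)) :=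
        (continuous_const.sub continuous_id).tendsto 0
      rw [sub_zero] at h5
      exact h5.mono_left nhdsWithin_le_nhds
    · have h5 : ∀ᶠ τ in 𝓝[>] (0 : ℝ), τ < x (j + 1) - x j :=
        Filter.Eventually.filter_mono nhdsWithin_le_nhds (eventually_lt_nhds (sub_pos.2 hjlt))
      filter_upwards [h5, self_mem_nhdsWithin] with τ h6 h7
      have h7' : 0 < τ := h7
      exact ⟨by linarith, by linarith⟩
  exact h3.tendsto.comp h4

/-- The estimate for a partition. -/
theorem key_norm {Γ γ : ℝ → ℂ} {a b c d : ℝ} {V : ℝ → ℝ} (hab : a < b)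
    (hΓ : ContinuousOn Γ (Icc a b)) (hγ : ContinuousOn γ (Icc c d)) (hinj : InjOn γ (Icc c d))
    (hsub : γ '' Icc c d ⊆ Γ '' Icc a b) (hV : MonotoneOn V (Icc a b)) {f g : ℂ → ℂ}
    (hf : ContinuousOn f (Γ '' Icc a b)) (hg : ContinuousOn g (Γ '' Icc a b))
    (H : ∀ s t, a ≤ s → s ≤ t → t ≤ b → ∀ (z : ℂ) (M : ℝ), (∀ u ∈ Icc s t, ‖g (Γ u) - z‖ ≤ M) →
      ‖(f (Γ t) - z * Γ t) - (f (Γ s) - z * Γ s)‖ ≤ M * (V t - V s))
    (m : ℕ) (x : ℕ → ℝ) (z : ℕ → ℂ)
    (om : ℝ) (hom0 : 0 ≤ om) (hx : Monotone x) (hc : c ≤ x 0) (hd : x m ≤ d)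
    (hom : ∀ j < m, ∀ u ∈ Icc (x j) (x (j + 1)), ‖g (γ u) - z j‖ ≤ om) :
    ∑ j ∈ Finset.range m, ‖(f (γ (x (j + 1))) - z j * γ (x (j + 1))) -
      (f (γ (x j)) - z j * γ (x j))‖ ≤ 2 * om * (V b - V a) := by
  have h1 := key_part hab hΓ hγ hinj hsub hV hf hg H Complex.re (fun z w => by
    rw [← Complex.sub_re]; exact Complex.abs_re_le_norm _) m x z om hom0 hx hc hd hom
  have h2 := key_part hab hΓ hγ hinj hsub hV hf hg H Complex.im (fun z w => by
    rw [← Complex.sub_im]; exact Complex.abs_im_le_norm _) m x z om hom0 hx hc hd hom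
  have h3 : ∑ j ∈ Finset.range m, ‖(f (γ (x (j + 1))) - z j * γ (x (j + 1))) -
      (f (γ (x j)) - z j * γ (x j))‖ ≤ ∑ j ∈ Finset.range m,
        (|(f (γ (x (j + 1))) - z j * γ (x (j + 1))).re - (f (γ (x j)) - z j * γ (x j)).re| +
        |(f (γ (x (j + 1))) - z j * γ (x (j + 1))).im - (f (γ (x j)) - z j * γ (x j)).im|) := by
    refine Finset.sum_le_sum fun j _ => ?_
    rw [← Complex.sub_re, ← Complex.sub_im]
    exact Complex.norm_le_abs_re_add_abs_im _
  rw [Finset.sum_add_distrib] at h3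
  linarith

/-- The variation function of a rectifiable path. -/
theorem exists_variation {Γ : ℝ → ℂ} {a b : ℝ} (hab : a < b)
    (h : BoundedVariationOn Γ (Icc a b)) : ∃ V : ℝ → ℝ, MonotoneOn V (Icc a b) ∧
      ∀ s t, a ≤ s → s ≤ t → t ≤ b → ‖Γ t - Γ s‖ ≤ V t - V s := by
  have hl := h.locallyBoundedVariationOn
  have ha : a ∈ Icc a b := left_mem_Icc.2 hab.le
  refine ⟨variationOnFromTo Γ (Icc a b) a, variationOnFromTo.monotoneOn hl ha, ?_⟩
  intro s t hs hst ht
  have hs' : s ∈ Icc a b := ⟨hs, hst.trans ht⟩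
  have ht' : t ∈ Icc a b := ⟨hs.trans hst, ht⟩
  have h1 : variationOnFromTo Γ (Icc a b) a t - variationOnFromTo Γ (Icc a b) a s =
      variationOnFromTo Γ (Icc a b) s t := by
    rw [← variationOnFromTo.add hl ha hs' ht']
    ring
  rw [h1, variationOnFromTo.eq_of_le Γ (Icc a b) hst, ← dist_eq_norm, dist_edist]
  refine ENNReal.toReal_mono (hl s t hs' ht') ?_
  exact eVariationOn.edist_le _ ⟨ht', hst, le_rfl⟩ ⟨hs', le_rfl, hst⟩

/-- Main theorem: every Jordan path in the image of a rectifiable path is admissible and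
belongs to the maximal collection. -/
theorem jordan_mem (Γ : Pth) (hΓ : Γ.Rectifiable) (γ : Pth) (hγ : γ.Jordan)
    (hX : γ.image ⊆ Γ.image) : γ ∈ maximalCollection Γ.image {σ | σ.IsSubpath Γ} := by
  obtain ⟨V, hVm, hV⟩ := exists_variation Γ.lt hΓ
  have hv : 0 ≤ V Γ.b - V Γ.a :=
    sub_nonneg.2 (hVm (left_mem_Icc.2 Γ.lt.le) (right_mem_Icc.2 Γ.lt.le) Γ.lt.le)
  refine ⟨⟨?_, ?_⟩, hX, ?_⟩
  · -- rectifiability
    have h1 : eVariationOn γ.map (Icc γ.a γ.b) ≤ ENNReal.ofReal (2 * 1 * (V Γ.b - V Γ.a)) := by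
      refine iSup_le ?_
      rintro ⟨n, ⟨x, hx, hxm⟩⟩
      have h2 := key_norm Γ.lt Γ.cont γ.cont hγ hX hVm (f := id) (g := fun _ => 1)
        continuousOn_id continuousOn_const (by
          intro s t hs hst ht z M hM
          have h3 := hM s (left_mem_Icc.2 hst)
          have h4 : (id (Γ.map t) - z * Γ.map t) - (id (Γ.map s) - z * Γ.map s) =
              (1 - z) * (Γ.map t - Γ.map s) := by
            simp only [id]
            ring
          rw [h4, norm_mul]
          exact mul_le_mul h3 (hV s t hs hst ht) (norm_nonneg _) ((norm_nonneg _).trans h3))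
        n x (fun _ => 0) 1 zero_le_one hx (hxm 0).1 (hxm n).2 (by
          intro j _ u _
          simp)
      simp only [id, zero_mul, sub_zero] at h2
      have h5 : ∑ i ∈ Finset.range n, edist (γ.map (x (i + 1))) (γ.map (x i)) =
          ENNReal.ofReal (∑ i ∈ Finset.range n, ‖γ.map (x (i + 1)) - γ.map (x i)‖) := by
        rw [ENNReal.ofReal_sum_of_nonneg fun _ _ => norm_nonneg _]
        refine Finset.sum_congr rfl fun i _ => ?_
        rw [edist_dist, dist_eq_norm]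
      dsimp only
      rw [h5]
      exact ENNReal.ofReal_le_ofReal h2
    exact ne_top_of_le_ne_top ENNReal.ofReal_ne_top h1
  · -- no constant subpath
    rintro σ ⟨h1, h2, h3⟩ ⟨w, hw⟩
    have ha : σ.a ∈ Icc σ.a σ.b := left_mem_Icc.2 σ.lt.le
    have hb : σ.b ∈ Icc σ.a σ.b := right_mem_Icc.2 σ.lt.le
    have h4 : γ.map σ.a = γ.map σ.b := by
      rw [← h3 ha, ← h3 hb, hw _ ha, hw _ hb]
    have h5 := hγ ⟨h1, σ.lt.le.trans h2⟩ ⟨h1.trans σ.lt.le, h2⟩ h4
    exact absurd h5 σ.lt.ne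
  · -- derivatives
    intro f g hf hg hder σ hσ
    obtain ⟨h1, h2, h3⟩ := hσ
    have H : ∀ s t, Γ.a ≤ s → s ≤ t → t ≤ Γ.b → ∀ (z : ℂ) (M : ℝ),
        (∀ u ∈ Icc s t, ‖g (Γ.map u) - z‖ ≤ M) →
          ‖(f (Γ.map t) - z * Γ.map t) - (f (Γ.map s) - z * Γ.map s)‖ ≤ M * (V t - V s) := by
      intro s t hs hst ht z M hM
      rcases hst.eq_or_lt with rfl | hlt
      · simp
      · exact bound_of_integral hlt
          (fun s' t' hs' hst' ht' => hV s' t' (hs.trans hs') hst' (ht'.trans ht))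
          (hder ⟨s, t, hlt, Γ.map, Γ.cont.mono (Icc_subset_Icc hs ht)⟩
            ⟨hs, ht, fun _ _ => rfl⟩) z M hM
    have hsub : Icc σ.a σ.b ⊆ Icc γ.a γ.b := Icc_subset_Icc h1 h2
    have hσc : ContinuousOn σ.map (Icc σ.a σ.b) := σ.cont
    have hσi : InjOn σ.map (Icc σ.a σ.b) := by
      intro s hs t ht hst
      rw [h3 hs, h3 ht] at hst
      exact hγ (hsub hs) (hsub ht) hst
    have hσX : σ.map '' Icc σ.a σ.b ⊆ Γ.map '' Icc Γ.a Γ.b := by
      rintro _ ⟨t, ht, rfl⟩
      rw [h3 ht]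
      exact hX (mem_image_of_mem _ (hsub ht))
    intro ε hε
    set om : ℝ := ε / (2 * (V Γ.b - V Γ.a) + 1) with hom
    have hom0 : 0 < om := div_pos hε (by linarith)
    have hom1 : 2 * om * (V Γ.b - V Γ.a) < ε := by
      have h4 : om * (2 * (V Γ.b - V Γ.a) + 1) = ε := by
        rw [hom]
        field_simp
      nlinarith
    have hgσ : ContinuousOn (fun t => g (σ.map t)) (Icc σ.a σ.b) :=
      hg.comp hσc fun t ht => hσX (mem_image_of_mem _ ht)
    have huc := isCompact_Icc.uniformContinuousOn_of_continuous hgσ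
    rw [Metric.uniformContinuousOn_iff] at huc
    obtain ⟨δ, hδ, hU⟩ := huc om hom0
    refine ⟨δ, hδ, fun n x ξ hx0 hxn hx => ?_⟩
    -- a monotone version of the partition
    set x' : ℕ → ℝ := fun j => x (min j n) with hx'
    have hmono : Monotone x' := by
      refine monotone_nat_of_le_succ fun j => ?_
      simp only [hx']
      by_cases hj : j < n
      · rw [min_eq_left hj.le, min_eq_left (by omega)]
        exact (hx j hj).1.le
      · rw [min_eq_right (by omega), min_eq_right (by omega)]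
    have hxx : ∀ j ≤ n, x' j = x j := fun j hj => by simp only [hx', min_eq_left hj]
    have hIn : ∀ j < n, Icc (x j) (x (j + 1)) ⊆ Icc σ.a σ.b := by
      intro j hj
      refine Icc_subset_Icc ?_ ?_
      · rw [← hx0, ← hxx 0 (Nat.zero_le n), ← hxx j hj.le]
        exact hmono (Nat.zero_le j)
      · rw [← hxn, ← hxx n le_rfl, ← hxx (j + 1) hj]
        exact hmono hj
    have h4 := key_norm Γ.lt Γ.cont hσc hσi hσX hVm hf hg H n x' (fun j => g (σ.map (ξ j))) om
      hom0.le hmono (by rw [hxx 0 (Nat.zero_le n), hx0]) (by rw [hxx n le_rfl, hxn]) (by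
        intro j hj u hu
        rw [hxx j hj.le, hxx (j + 1) hj] at hu
        obtain ⟨h5, h6, h7⟩ := hx j hj
        rw [← dist_eq_norm]
        refine (hU u (hIn j hj hu) (ξ j) (hIn j hj h7) ?_).le
        rw [Real.dist_eq, abs_lt]
        constructor <;> linarith [hu.1, hu.2, h7.1, h7.2])
    have h5 : rsum g σ.map n x ξ - (f (σ.map σ.b) - f (σ.map σ.a)) =
        -∑ j ∈ Finset.range n, ((f (σ.map (x' (j + 1))) - g (σ.map (ξ j)) * σ.map (x' (j + 1))) -
          (f (σ.map (x' j)) - g (σ.map (ξ j)) * σ.map (x' j))) := by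
      rw [← hxn, ← hx0, ← hxx n le_rfl, ← hxx 0 (Nat.zero_le n),
        ← Finset.sum_range_sub (fun j => f (σ.map (x' j))) n, rsum, ← Finset.sum_sub_distrib,
        ← Finset.sum_neg_distrib]
      refine Finset.sum_congr rfl fun j hj => ?_
      have hj' := Finset.mem_range.1 hj
      rw [hxx j hj'.le, hxx (j + 1) hj']
      ring
    rw [h5, norm_neg]
    exact ((norm_sum_le _ _).trans h4).trans_lt hom1

end Pool.Agent.R709.JP
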